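import Pool.Agent.Q157.OM.Stm

/-!
# Project OM (helper157): job SW, the Stanley-Wilf bound from the Füredi-Hajnal bound (Klazar)
-/

set_option autoImplicit false

namespace Pool.Agent.Q24.OM

open Finset
open Pool.Agent.Q157.OM

/-- the set of entries `M` avoids `τ` -/
def Avd {m : ℕ} (τ : Equiv.Perm (Fin m)) (n : ℕ) (M : Finset (Fin n × Fin n)) : Prop :=
  ¬ ∃ φ ψ : Fin m ↪o Fin n, ∀ a, (φ a, ψ (τ a)) ∈ M

/-- the half of an element -/
def hlf {k : ℕ} (x : Fin (2 * k)) : Fin k := ⟨x.1 / 2, by omega⟩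

/-- contraction of blocks -/
def ctr {k : ℕ} (x : Fin (2 * k) × Fin (2 * k)) : Fin k × Fin k := (hlf x.1, hlf x.2)

theorem avd_ctr {m k : ℕ} (τ : Equiv.Perm (Fin m)) {M : Finset (Fin (2 * k) × Fin (2 * k))}
    (h : Avd τ (2 * k) M) : Avd τ k (M.image ctr) := by
  rintro ⟨φ, ψ, hφ⟩
  apply h
  have h1 : ∀ a, ∃ x : Fin (2 * k) × Fin (2 * k), x ∈ M ∧ hlf x.1 = φ a ∧ hlf x.2 = ψ (τ a) := by
    intro a
    obtain ⟨x, hx, hxa⟩ := Finset.mem_image.1 (hφ a)
    exact ⟨x, hx, congrArg Prod.fst hxa, congrArg Prod.snd hxa⟩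
  choose x hxM hx1 hx2 using h1
  have mono : ∀ y z : Fin (2 * k), hlf y < hlf z → y < z := by
    intro y z hyz
    rw [Fin.lt_def] at hyz ⊢
    simp only [hlf] at hyz
    omega
  refine ⟨OrderEmbedding.ofStrictMono (fun a => (x a).1) ?_,
    OrderEmbedding.ofStrictMono (fun b => (x (τ.symm b)).2) ?_, ?_⟩
  · intro a b hab
    apply mono
    rw [hx1, hx1]
    exact φ.strictMono hab
  · intro a b hab
    apply mono
    rw [hx2, hx2, Equiv.apply_symm_apply, Equiv.apply_symm_apply]
    exact ψ.strictMono hab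
  · intro a
    have h2 : ((OrderEmbedding.ofStrictMono (fun a => (x a).1) (by
      intro a b hab
      apply mono
      rw [hx1, hx1]
      exact φ.strictMono hab)) a, (x (τ.symm (τ a))).2) = x a := by
      rw [Equiv.symm_apply_apply]
      rfl
    have h3 := hxM a
    rw [← h2] at h3
    exact h3

theorem fib_ctr {k : ℕ} (y : Fin k × Fin k) :
    (univ.filter (fun x : Fin (2 * k) × Fin (2 * k) => ctr x = y)).card ≤ 4 := by
  have h1 : (univ.filter (fun x : Fin (2 * k) × Fin (2 * k) => ctr x = y)).card ≤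
      ((range 2) ×ˢ (range 2)).card := by
    refine Finset.card_le_card_of_injOn (fun x => (x.1.1 % 2, x.2.1 % 2)) ?_ ?_
    · intro x _
      simp only [Finset.coe_product, Set.mem_prod, Finset.mem_coe, Finset.mem_range]
      exact ⟨Nat.mod_lt _ (by norm_num), Nat.mod_lt _ (by norm_num)⟩
    · intro x hx z hz hxz
      rw [Finset.mem_coe, Finset.mem_filter] at hx hz
      have h2 : ctr x = ctr z := hx.2.trans hz.2.symm
      have e1 : x.1.1 / 2 = z.1.1 / 2 := congrArg (fun t => (Prod.fst t).1) h2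
      have e2 : x.2.1 / 2 = z.2.1 / 2 := congrArg (fun t => (Prod.snd t).1) h2
      have e3 : x.1.1 % 2 = z.1.1 % 2 := congrArg Prod.fst hxz
      have e4 : x.2.1 % 2 = z.2.1 % 2 := congrArg Prod.snd hxz
      refine Prod.ext (Fin.ext ?_) (Fin.ext ?_)
      · omega
      · omega
  refine h1.trans ?_
  rw [Finset.card_product, Finset.card_range]

open Classical in
/-- the number of the sets of entries which avoid `τ` -/
noncomputable def TT {m : ℕ} (τ : Equiv.Perm (Fin m)) (n : ℕ) : ℕ :=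
  (univ.filter (fun M : Finset (Fin n × Fin n) => Avd τ n M)).card

theorem TT_double {m : ℕ} (τ : Equiv.Perm (Fin m)) {c : ℕ}
    (hc : ∀ (n : ℕ) (M : Finset (Fin n × Fin n)), Avd τ n M → M.card ≤ c * n) (k : ℕ) :
    TT τ (2 * k) ≤ TT τ k * 16 ^ (c * k) := by
  classical
  unfold TT
  have h1 := Finset.card_eq_sum_card_fiberwise
    (s := univ.filter (fun M : Finset (Fin (2 * k) × Fin (2 * k)) => Avd τ (2 * k) M))
    (t := univ.filter (fun M : Finset (Fin k × Fin k) => Avd τ k M))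
    (f := fun M => M.image ctr) (by
      intro M hM
      rw [Finset.mem_coe, Finset.mem_filter] at hM ⊢
      exact ⟨Finset.mem_univ _, avd_ctr τ hM.2⟩)
  rw [h1]
  refine (Finset.sum_le_card_nsmul _ _ (16 ^ (c * k)) fun M' hM' => ?_).trans_eq (smul_eq_mul _ _)
  rw [Finset.mem_filter] at hM'
  have h2 : (univ.filter (fun x : Fin (2 * k) × Fin (2 * k) => ctr x ∈ M')).card ≤ 4 * (c * k) := by
    have h3 := Finset.card_eq_sum_card_fiberwise
      (s := univ.filter (fun x : Fin (2 * k) × Fin (2 * k) => ctr x ∈ M')) (t := M') (f := ctr) (by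
        intro x hx
        rw [Finset.mem_coe, Finset.mem_filter] at hx
        exact hx.2)
    rw [h3]
    calc ∑ b ∈ M', _ ≤ ∑ b ∈ M', 4 := by
          refine Finset.sum_le_sum fun b _ => ?_
          refine le_trans (Finset.card_le_card ?_) (fib_ctr b)
          intro x hx
          rw [Finset.mem_filter] at hx ⊢
          exact ⟨Finset.mem_univ _, hx.2⟩
      _ = 4 * M'.card := by rw [Finset.sum_const, smul_eq_mul, mul_comm]
      _ ≤ 4 * (c * k) := Nat.mul_le_mul_left _ (hc k M' hM'.2)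
  have h4 : ((univ.filter (fun M : Finset (Fin (2 * k) × Fin (2 * k)) =>
      Avd τ (2 * k) M)).filter (fun M => M.image ctr = M')) ⊆
      (univ.filter (fun x : Fin (2 * k) × Fin (2 * k) => ctr x ∈ M')).powerset := by
    intro M hM
    rw [Finset.mem_filter] at hM
    rw [Finset.mem_powerset]
    intro x hx
    rw [Finset.mem_filter, ← hM.2]
    exact ⟨Finset.mem_univ _, Finset.mem_image_of_mem _ hx⟩
  refine (Finset.card_le_card h4).trans ?_
  rw [Finset.card_powerset]
  refine (Nat.pow_le_pow_right (by norm_num) h2).trans ?_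
  rw [pow_mul]
  norm_num

theorem TT_one {m : ℕ} (τ : Equiv.Perm (Fin m)) : TT τ 1 ≤ 2 := by
  classical
  unfold TT
  refine (Finset.card_filter_le _ _).trans ?_
  rw [Finset.card_univ]
  simp

theorem TT_pow {m : ℕ} (τ : Equiv.Perm (Fin m)) {c : ℕ}
    (hc : ∀ (n : ℕ) (M : Finset (Fin n × Fin n)), Avd τ n M → M.card ≤ c * n) (j : ℕ) :
    TT τ (2 ^ j) ≤ 2 * 16 ^ (c * 2 ^ j) := by
  induction j with
  | zero =>
    rw [pow_zero]
    exact (TT_one τ).trans (Nat.le_mul_of_pos_right _ (by positivity))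
  | succ j ih =>
    rw [pow_succ, mul_comm (2 ^ j) 2]
    refine (TT_double τ hc _).trans ?_
    refine (Nat.mul_le_mul_right _ ih).trans ?_
    rw [mul_assoc, ← pow_add]
    refine Nat.mul_le_mul_left _ (Nat.pow_le_pow_right (by norm_num) ?_)
    apply le_of_eq
    ring

theorem perm_le {m : ℕ} (τ : Equiv.Perm (Fin m)) {n N : ℕ} (hnN : n ≤ N) :
    Nat.card {π : Equiv.Perm (Fin n) // ¬ Contains π τ} ≤ TT τ N := by
  classical
  let ent : Equiv.Perm (Fin n) → Finset (Fin N × Fin N) := fun π =>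
    univ.image (fun i => (Fin.castLE hnN i, Fin.castLE hnN (π i)))
  have hent : ∀ (π : Equiv.Perm (Fin n)) (x : Fin N × Fin N), x ∈ ent π ↔
      ∃ i, Fin.castLE hnN i = x.1 ∧ Fin.castLE hnN (π i) = x.2 := by
    intro π x
    simp only [ent, Finset.mem_image, Finset.mem_univ, true_and]
    constructor
    · rintro ⟨i, rfl⟩
      exact ⟨i, rfl, rfl⟩
    · rintro ⟨i, h1, h2⟩
      exact ⟨i, Prod.ext h1 h2⟩
  have hcast : ∀ i j : Fin n, Fin.castLE hnN i < Fin.castLE hnN j ↔ i < j := fun i j => Iff.rfl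
  have hav : ∀ π : Equiv.Perm (Fin n), ¬ Contains π τ → Avd τ N (ent π) := by
    rintro π hπ ⟨φ, ψ, h⟩
    apply hπ
    have h1 : ∀ a, ∃ i : Fin n, Fin.castLE hnN i = φ a ∧ Fin.castLE hnN (π i) = ψ (τ a) :=
      fun a => (hent π _).1 (h a)
    choose i hi1 hi2 using h1
    refine ⟨OrderEmbedding.ofStrictMono i ?_, ?_⟩
    · intro a b hab
      rw [← hcast, hi1, hi1]
      exact φ.strictMono hab
    · intro a b
      show τ a < τ b ↔ π (i a) < π (i b)
      rw [← hcast (π (i a)), hi2, hi2]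
      exact ψ.lt_iff_lt.symm
  have hinj : ∀ π π' : Equiv.Perm (Fin n), ent π = ent π' → π = π' := by
    intro π π' h
    ext i
    have h1 : (Fin.castLE hnN i, Fin.castLE hnN (π i)) ∈ ent π' := by
      rw [← h, hent]
      exact ⟨i, rfl, rfl⟩
    obtain ⟨j, hj1, hj2⟩ := (hent _ _).1 h1
    have h2 : j = i := Fin.castLE_injective hnN hj1
    subst h2
    have h3 := Fin.castLE_injective hnN hj2
    rw [h3]
  unfold TT
  rw [← Fintype.card_coe, ← Nat.card_eq_fintype_card]
  refine Nat.card_le_card_of_injective (fun π => ⟨ent π.1, ?_⟩) ?_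
  · rw [Finset.mem_filter]
    exact ⟨Finset.mem_univ _, hav π.1 π.2⟩
  · intro π π' h
    exact Subtype.ext (hinj _ _ (congrArg Subtype.val h))

theorem SW (h : S_FH) : S_SW := by
  intro m τ
  obtain ⟨c, hc⟩ := h m τ
  refine ⟨2 * 16 ^ (2 * c), fun n => ?_⟩
  rcases Nat.eq_zero_or_pos n with rfl | hn
  · rw [pow_zero]
    have : Subsingleton {π : Equiv.Perm (Fin 0) // ¬ Contains π τ} :=
      ⟨fun a b => Subtype.ext (Subsingleton.elim _ _)⟩
    exact Finite.card_le_one_iff_subsingleton.2 this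
  · have h1 : n ≤ 2 ^ Nat.clog 2 n := Nat.le_pow_clog (by norm_num) n
    have h2 : 2 ^ Nat.clog 2 n ≤ 2 * n := by
      rcases Nat.lt_or_ge 1 n with h3 | h3
      · have h4 := Nat.pow_pred_clog_lt_self (b := 2) (by norm_num) h3
        have h5 : 0 < Nat.clog 2 n := Nat.clog_pos (by norm_num) h3
        have h6 : 2 ^ ((Nat.clog 2 n).pred + 1) = 2 * 2 ^ (Nat.clog 2 n).pred := by
          rw [pow_succ']
        have h7 : (Nat.clog 2 n).pred + 1 = Nat.clog 2 n := Nat.succ_pred_eq_of_pos h5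
        rw [h7] at h6
        omega
      · have h4 : n = 1 := by omega
        subst h4
        simp
    refine (perm_le τ h1).trans ((TT_pow τ hc _).trans ?_)
    calc 2 * 16 ^ (c * 2 ^ Nat.clog 2 n) ≤ 2 * 16 ^ (c * (2 * n)) := by
          refine Nat.mul_le_mul_left _ (Nat.pow_le_pow_right (by norm_num) ?_)
          exact Nat.mul_le_mul_left _ h2
      _ ≤ 2 ^ n * 16 ^ (c * (2 * n)) := by
          refine Nat.mul_le_mul_right _ ?_
          calc 2 = 2 ^ 1 := (pow_one 2).symm
            _ ≤ 2 ^ n := Nat.pow_le_pow_right (by norm_num) hn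
      _ = (2 * 16 ^ (2 * c)) ^ n := by
          rw [mul_pow, ← pow_mul]
          congr 2
          ring

end Pool.Agent.Q24.OM
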