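import Pool.Agent.Q157.OM.Stm

/-!
# Project OM (helper157): job split, words with the same balanced places have a common composition
-/

set_option autoImplicit false

namespace Pool.Agent.Q24.OM

open Finset
open Pool.Agent.Q157.OM

/-- the word has blocks between the balanced places -/
def BP (r : ℕ) (R : List Letter) : Prop :=
  ∀ a b, a < b → b ≤ r → (0 < a → Bal R a) → (b < r → Bal R b) →
    (∀ i, a < i → i < b → ¬ Bal R i) →
    ∃ d : Bool, (R.drop (2 * a)).take (2 * (b - a)) = block (b - a) d

theorem count_block (t : ℕ) (d : Bool) : (block t d).count Letter.A = t := by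
  unfold block
  have h : Letter.B ≠ Letter.A := by decide
  cases d <;> simp [List.count_replicate, h]

theorem bal_drop {R : List Letter} {b : ℕ} {d : Bool} (h : R.take (2 * b) = block b d) (i : ℕ) :
    Bal (R.drop (2 * b)) i ↔ Bal R (b + i) := by
  unfold Bal
  have h1 : R.take (2 * (b + i)) = R.take (2 * b) ++ (R.drop (2 * b)).take (2 * i) := by
    rw [mul_add, List.take_add]
  rw [h1, List.count_append, h, count_block]
  omega

theorem bp_drop {R : List Letter} {r b : ℕ} {d : Bool} (hbr : b ≤ r)
    (h : R.take (2 * b) = block b d) (hR : BP r R) : BP (r - b) (R.drop (2 * b)) := by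
  intro x y hxy hyr hx hy hi
  have h1 := hR (b + x) (b + y) (by omega) (by omega) ?_ ?_ ?_
  · obtain ⟨e, he⟩ := h1
    refine ⟨e, ?_⟩
    have e1 : b + y - (b + x) = y - x := by omega
    rw [e1] at he
    rw [List.drop_drop, ← mul_add]
    exact he
  · intro _
    rcases Nat.eq_zero_or_pos x with h0 | h0
    · subst h0
      unfold Bal
      rw [add_zero, h, count_block]
    · exact (bal_drop h x).1 (hx h0)
  · intro h0
    exact (bal_drop h y).1 (hy (by omega))
  · intro i h1 h2 h3
    refine hi (i - b) (by omega) (by omega) ?_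
    rw [bal_drop h]
    have : b + (i - b) = i := by omega
    rw [this]
    exact h3

theorem split_aux (r : ℕ) : ∀ (P Q : List Letter), P.length = 2 * r → Q.length = 2 * r →
    (∀ i, 0 < i → i < r → (Bal P i ↔ Bal Q i)) → BP r P → BP r Q →
    ∃ l : List ℕ, HasComposition P l ∧ HasComposition Q l := by
  induction r using Nat.strong_induction_on with
  | _ r ih =>
    intro P Q hP hQ hbal bP bQ
    rcases Nat.eq_zero_or_pos r with h0 | hr
    · subst h0
      rw [mul_zero, List.length_eq_zero_iff] at hP hQ
      refine ⟨[], ⟨by simp, [], rfl, ?_⟩, ⟨by simp, [], rfl, ?_⟩⟩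
      · rw [hP]; rfl
      · rw [hQ]; rfl
    · classical
      have hex : ∃ b, 0 < b ∧ b ≤ r ∧ (b = r ∨ Bal P b) := ⟨r, hr, le_rfl, Or.inl rfl⟩
      obtain ⟨hb0, hbr, hb⟩ := Nat.find_spec hex
      have hmin : ∀ i, 0 < i → i < Nat.find hex → ¬ Bal P i := by
        intro i hi0 hi hB
        exact Nat.find_min hex hi ⟨hi0, by omega, Or.inr hB⟩
      generalize Nat.find hex = b at hb0 hbr hb hmin
      obtain ⟨d1, hd1⟩ := bP 0 b hb0 hbr (fun h => absurd h (lt_irrefl 0))
        (fun h => hb.resolve_left (by omega)) hmin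
      obtain ⟨d2, hd2⟩ := bQ 0 b hb0 hbr (fun h => absurd h (lt_irrefl 0))
        (fun h => (hbal b hb0 h).1 (hb.resolve_left (by omega)))
        (fun i h1 h2 h3 => hmin i h1 h2 ((hbal i h1 (by omega)).2 h3))
      rw [mul_zero, List.drop_zero, Nat.sub_zero] at hd1 hd2
      obtain ⟨l, ⟨hl1, e1, he1, hP1⟩, ⟨-, e2, he2, hQ1⟩⟩ := ih (r - b) (by omega)
        (P.drop (2 * b)) (Q.drop (2 * b))
        (by rw [List.length_drop, hP]; omega) (by rw [List.length_drop, hQ]; omega)
        (fun i h1 h2 => by
          rw [bal_drop hd1, bal_drop hd2]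
          exact hbal (b + i) (by omega) (by omega))
        (bp_drop hbr hd1 bP) (bp_drop hbr hd2 bQ)
      have hl : ∀ t ∈ b :: l, 1 ≤ t := by
        intro t ht
        rcases List.mem_cons.1 ht with rfl | h
        · exact hb0
        · exact hl1 t h
      refine ⟨b :: l, ⟨hl, d1 :: e1, by simp [he1], ?_⟩, ⟨hl, d2 :: e2, by simp [he2], ?_⟩⟩
      · rw [List.zipWith_cons_cons, List.flatten_cons, ← hP1, ← hd1, List.take_append_drop]
      · rw [List.zipWith_cons_cons, List.flatten_cons, ← hQ1, ← hd2, List.take_append_drop]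

theorem split : S_split := by
  intro r P Q hP hQ hbal h
  exact split_aux r P Q hP hQ hbal (h P (by simp)) (h Q (by simp))

end Pool.Agent.Q24.OM
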